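import Mathlib

open Filter Topology Finset

namespace Pool.Agent.Results.MP_51e3e3_an.Plane

/-- The terms of the series. -/
noncomputable def v (n : ℕ) : ℝ × ℝ := ((-1) ^ n / n, (-1) ^ n / Real.sqrt n)

lemma one_term {m n : ℕ} (hm : 1 ≤ m) (h : m ^ 2 ≤ n) {D : ℝ} (hD : (n : ℝ) - (m : ℝ) ^ 2 ≤ D) :
    |1 / (n : ℝ) - 1 / (m : ℝ) ^ 2| ≤ D / (m : ℝ) ^ 4 ∧
      |1 / Real.sqrt n - 1 / m| ≤ D / (m : ℝ) ^ 3 ∧ 1 / Real.sqrt n ≤ 1 / m := by
  have hm' : (1 : ℝ) ≤ m := by exact_mod_cast hm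
  have h' : (m : ℝ) ^ 2 ≤ n := by exact_mod_cast h
  have hs : (m : ℝ) ≤ Real.sqrt n := Real.le_sqrt_of_sq_le h'
  have hss : Real.sqrt n * Real.sqrt n = n := Real.mul_self_sqrt (Nat.cast_nonneg n)
  set s := Real.sqrt n
  have hm0 : (0 : ℝ) < m := by linarith
  have hs0 : 0 < s := by linarith
  have hn0 : (0 : ℝ) < n := by nlinarith
  have hD0 : 0 ≤ D := by linarith
  have h3 : 1 / s ≤ 1 / (m : ℝ) := one_div_le_one_div_of_le hm0 hs
  refine ⟨?_, ?_, h3⟩
  · rw [abs_sub_comm, abs_of_nonneg (sub_nonneg.2 (one_div_le_one_div_of_le (by positivity) h')),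
      div_sub_div _ _ (by positivity) hn0.ne', div_le_div_iff₀ (by positivity) (by positivity)]
    have : D * ((m : ℝ) ^ 2 * (m : ℝ) ^ 2) ≤ D * ((m : ℝ) ^ 2 * n) := by gcongr
    nlinarith [pow_pos hm0 4]
  · rw [abs_sub_comm, abs_of_nonneg (sub_nonneg.2 h3),
      div_sub_div _ _ hm0.ne' hs0.ne', div_le_div_iff₀ (by positivity) (by positivity)]
    have h4 : (s - m) * m ≤ D := by nlinarith
    have h5 : D * ((m : ℝ) * m) ≤ D * (m * s) := by gcongr
    nlinarith [mul_le_mul_of_nonneg_right h4 (by positivity : (0 : ℝ) ≤ m * m)]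

lemma block {m : ℕ} (hm : 1 ≤ m) (k : ℤ) {K : ℝ} (hK : |(k : ℝ)| ≤ K) :
    ∃ F : Finset ℕ, (∀ n ∈ F, m ^ 2 ≤ n ∧ (n : ℝ) ≤ (m : ℝ) ^ 2 + 2 * K) ∧
      |∑ n ∈ F, (v n).1 - k / (m : ℝ) ^ 2| ≤ 2 * K ^ 2 / (m : ℝ) ^ 4 ∧
      |∑ n ∈ F, (v n).2 - k / (m : ℝ)| ≤ 2 * K ^ 2 / (m : ℝ) ^ 3 ∧
      ∑ n ∈ F, 1 / Real.sqrt n ≤ K / m := by
  obtain ⟨c, σ, hσ, hc, hcK, r, hr, hpar⟩ : ∃ (c : ℕ) (σ : ℝ), |σ| = 1 ∧ (k : ℝ) = σ * c ∧
      (c : ℝ) ≤ K ∧ ∃ r ≤ 1, (-1 : ℝ) ^ (m ^ 2 + r) = σ := by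
    have h1 : ∀ σ : ℝ, σ = 1 ∨ σ = -1 → ∃ r ≤ 1, (-1 : ℝ) ^ (m ^ 2 + r) = σ := by
      intro σ hσ
      rcases neg_one_pow_eq_or ℝ (m ^ 2) with h | h <;> rcases hσ with rfl | rfl
      · exact ⟨0, by norm_num, by simpa using h⟩
      · exact ⟨1, le_rfl, by rw [pow_succ, h]; norm_num⟩
      · exact ⟨1, le_rfl, by rw [pow_succ, h]; norm_num⟩
      · exact ⟨0, by norm_num, by simpa using h⟩
    obtain ⟨c, rfl | rfl⟩ := Int.eq_nat_or_neg k
    · exact ⟨c, 1, by simp, by simp, by simpa using hK, h1 1 (Or.inl rfl)⟩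
    · exact ⟨c, -1, by simp, by simp, by simpa using hK, h1 (-1) (Or.inr rfl)⟩
  have hinj : Function.Injective fun i : ℕ => m ^ 2 + r + 2 * i := fun i j h => by
    simp only at h; omega
  have hK0 : 0 ≤ K := (abs_nonneg _).trans hK
  have hm0 : (0 : ℝ) < m := by exact_mod_cast hm
  have hb : ∀ i ∈ range c, ((m ^ 2 + r + 2 * i : ℕ) : ℝ) - (m : ℝ) ^ 2 ≤ 2 * K := by
    intro i hi
    have h1 : ((r + 2 * i : ℕ) : ℝ) ≤ (2 * c : ℕ) := by
      have := mem_range.1 hi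
      exact_mod_cast (by omega : r + 2 * i ≤ 2 * c)
    push_cast at h1 ⊢; linarith
  have ht := fun i hi => one_term hm (show m ^ 2 ≤ m ^ 2 + r + 2 * i by omega) (hb i hi)
  have hsg : ∀ i, (-1 : ℝ) ^ (m ^ 2 + r + 2 * i) = σ := fun i => by
    rw [pow_add, hpar, pow_mul]; norm_num
  have gen : ∀ (f : ℕ → ℝ) (u B : ℝ), 0 ≤ B → (∀ i ∈ range c, |1 / f i - 1 / u| ≤ B) →
      |∑ i ∈ range c, σ / f i - k / u| ≤ K * B := by
    intro f u B hB h
    have e : ∑ i ∈ range c, σ / f i - k / u = σ * ∑ i ∈ range c, (1 / f i - 1 / u) := by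
      rw [hc, sum_sub_distrib, mul_sub, mul_sum]
      simp only [sum_const, card_range, nsmul_eq_mul]
      congr 1
      · exact sum_congr rfl fun i _ => by ring
      · ring
    rw [e, abs_mul, hσ, one_mul]
    refine (abs_sum_le_sum_abs _ _).trans ((sum_le_card_nsmul _ _ _ h).trans ?_)
    simp only [card_range, nsmul_eq_mul]
    gcongr
  refine ⟨(range c).image fun i => m ^ 2 + r + 2 * i, fun n hn => ?_, ?_, ?_, ?_⟩
  · obtain ⟨i, hi, rfl⟩ := mem_image.1 hn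
    exact ⟨by omega, by linarith [hb i hi]⟩
  · rw [sum_image hinj.injOn]
    simp only [v, hsg]
    exact (gen _ _ _ (by positivity) fun i hi => (ht i hi).1).trans_eq (by ring)
  · rw [sum_image hinj.injOn]
    simp only [v, hsg]
    exact (gen _ _ _ (by positivity) fun i hi => (ht i hi).2.1).trans_eq (by ring)
  · rw [sum_image hinj.injOn]
    refine (sum_le_card_nsmul _ _ _ fun i hi => (ht i hi).2.2).trans ?_
    simp only [card_range, nsmul_eq_mul, mul_one_div]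
    gcongr

lemma step {m : ℕ} {η a b : ℝ} (hm : 1 ≤ m) (h1 : 126 ≤ η * m) (h2 : η ≤ m / 2304)
    (ha : |a| ≤ η / m) (hb : |b| ≤ η) :
    ∃ F : Finset ℕ, (∀ n ∈ F, m ^ 2 ≤ n ∧ n < (3 * m) ^ 2) ∧
      |a - ∑ n ∈ F, (v n).1| ≤ (2 / 3 * η) / (3 * m) ∧ |b - ∑ n ∈ F, (v n).2| ≤ 2 / 3 * η ∧
      ∑ n ∈ F, 1 / Real.sqrt n ≤ 18 * η := by
  have hm0 : (0 : ℝ) < m := by exact_mod_cast hm
  have hη : 0 ≤ η := (abs_nonneg _).trans hb
  set A := a * (m : ℝ) ^ 2 with hA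
  set B := b * m with hB
  have hA1 : |A| ≤ η * m := by
    rw [hA, abs_mul, abs_of_pos (pow_pos hm0 2)]
    rw [le_div_iff₀ hm0] at ha; nlinarith
  have hB1 : |B| ≤ η * m := by rw [hB, abs_mul, abs_of_pos hm0]; gcongr
  have r1 := abs_sub_round (2 * A - B)
  have r2 := abs_sub_round (4 * (B - A))
  set k1 := round (2 * A - B)
  set k2 := round (4 * (B - A))
  rw [abs_le] at hA1 hB1 r1 r2
  have hk1 : |(k1 : ℝ)| ≤ 9 * (η * m) := abs_le.2 ⟨by linarith, by linarith⟩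
  have hk2 : |(k2 : ℝ)| ≤ 9 * (η * m) := abs_le.2 ⟨by linarith, by linarith⟩
  obtain ⟨F1, p1, q1, s1, t1⟩ := block hm k1 hk1
  obtain ⟨F2, p2, q2, s2, t2⟩ := block (m := 2 * m) (by omega) k2 hk2
  have hsm : 18 * (η * m) < (m : ℝ) ^ 2 := by nlinarith
  have hlt : ∀ n ∈ F1, n < (2 * m) ^ 2 := fun n hn => by
    have : (n : ℝ) < ((2 * m) ^ 2 : ℕ) := by push_cast; nlinarith [(p1 n hn).2]
    exact_mod_cast this
  have hdis : Disjoint F1 F2 := disjoint_left.2 fun n h h' => absurd (hlt n h) (not_lt.2 (p2 n h').1)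
  have hE : 2 * (9 * (η * m)) ^ 2 ≤ 1 / 14 * η * (m : ℝ) ^ 3 := by
    have : 162 * η ≤ 1 / 14 * m := by linarith
    nlinarith [mul_le_mul_of_nonneg_right this (by positivity : 0 ≤ η * (m : ℝ) ^ 2)]
  push_cast at q2 s2 t2
  have hi : 1 / (m : ℝ) ≤ η / 126 := by rw [div_le_div_iff₀ hm0 (by norm_num)]; linarith
  refine ⟨F1 ∪ F2, fun n hn => ?_, ?_, ?_, ?_⟩
  · rcases mem_union.1 hn with h | h
    · exact ⟨(p1 n h).1, (hlt n h).trans_le (Nat.pow_le_pow_left (by omega) 2)⟩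
    · refine ⟨(Nat.pow_le_pow_left (by omega) 2).trans (p2 n h).1, ?_⟩
      have h3 := (p2 n h).2
      have : (n : ℝ) < ((3 * m) ^ 2 : ℕ) := by push_cast at h3 ⊢; nlinarith
      exact_mod_cast this
  · rw [sum_union hdis]
    have e1 : 2 * (9 * (η * m)) ^ 2 / (m : ℝ) ^ 4 ≤ 1 / 14 * (η / m) := by
      rw [div_le_iff₀ (by positivity)]
      exact hE.trans_eq (by field_simp)
    have e2 : 2 * (9 * (η * m)) ^ 2 / (2 * (m : ℝ)) ^ 4 ≤ 1 / 14 * (η / m) :=
      le_trans (by gcongr; linarith) e1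
    have e3 : |a - k1 / (m : ℝ) ^ 2 - k2 / (2 * (m : ℝ)) ^ 2| ≤ 1 / 126 * (η / m) := by
      have : a - k1 / (m : ℝ) ^ 2 - k2 / (2 * (m : ℝ)) ^ 2 = (A - k1 - k2 / 4) / (m : ℝ) ^ 2 := by
        rw [hA]; field_simp; ring
      rw [this, abs_div, abs_of_pos (pow_pos hm0 2), div_le_iff₀ (pow_pos hm0 2)]
      have h4 : 1 / 126 * (η / m) * (m : ℝ) ^ 2 = η * m / 126 := by field_simp
      rw [h4]
      exact abs_le.2 ⟨by linarith, by linarith⟩
    have e4 : (2 / 3 * η) / (3 * m) = 2 / 9 * (η / m) := by field_simp; ring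
    have e5 : 0 ≤ η / m := by positivity
    rw [e4]
    rw [abs_le] at q1 q2 e3 ⊢
    constructor <;> linarith [q1.1, q1.2, q2.1, q2.2, e3.1, e3.2]
  · rw [sum_union hdis]
    have e1 : 2 * (9 * (η * m)) ^ 2 / (m : ℝ) ^ 3 ≤ 1 / 14 * η := by
      rw [div_le_iff₀ (by positivity)]; exact hE
    have e2 : 2 * (9 * (η * m)) ^ 2 / (2 * (m : ℝ)) ^ 3 ≤ 1 / 14 * η :=
      le_trans (by gcongr; linarith) e1
    have e3 : |b - k1 / (m : ℝ) - k2 / (2 * (m : ℝ))| ≤ η / 126 := by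
      have : b - k1 / (m : ℝ) - k2 / (2 * (m : ℝ)) = (B - k1 - k2 / 2) * (1 / m) := by
        rw [hB]; field_simp
      rw [this, abs_mul, abs_of_pos (one_div_pos.2 hm0)]
      have h4 : |B - k1 - k2 / 2| ≤ 1 := abs_le.2 ⟨by linarith, by linarith⟩
      nlinarith [one_div_pos.2 hm0]
    rw [abs_le] at s1 s2 e3 ⊢
    constructor <;> linarith [s1.1, s1.2, s2.1, s2.2, e3.1, e3.2]
  · rw [sum_union hdis]
    have e1 : 9 * (η * m) / (m : ℝ) = 9 * η := by field_simp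
    have e2 : 9 * (η * m) / (2 * (m : ℝ)) = 9 / 2 * η := by field_simp
    linarith

lemma init (a : ℝ) : ∃ F : Finset ℕ, |a - ∑ n ∈ F, (v n).1| ≤ 1 / 2304 := by
  obtain ⟨r, hr, σ, hσ, ha⟩ : ∃ r ≤ 1, ∃ σ : ℝ, (-1 : ℝ) ^ r = σ ∧ a = σ * |a| := by
    rcases le_total 0 a with h | h
    · exact ⟨0, by norm_num, 1, by norm_num, by rw [abs_of_nonneg h, one_mul]⟩
    · exact ⟨1, le_rfl, -1, by norm_num, by rw [abs_of_nonpos h]; ring⟩
  have hσ1 : |σ| = 1 := by rw [← hσ]; simp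
  let s : ℕ → ℝ := fun k => ∑ i ∈ range k, 1 / ((2 * (i + 1152) + r : ℕ) : ℝ)
  have hs : Tendsto s atTop atTop := by
    refine tendsto_atTop_mono (fun k => ?_)
      (Real.tendsto_sum_range_one_div_nat_succ_atTop.const_mul_atTop (by norm_num : (0 : ℝ) < 1 / 2306))
    rw [mul_sum]
    refine sum_le_sum fun i _ => ?_
    rw [one_div_mul_one_div]
    refine one_div_le_one_div_of_le (by positivity) ?_
    exact_mod_cast (by omega : 2 * (i + 1152) + r ≤ 2306 * (i + 1))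
  have hex : ∃ k, |a| < s (k + 1) := ((tendsto_add_atTop_iff_nat 1).2 hs |>.eventually_gt_atTop _).exists
  classical
  have h1 := Nat.find_spec hex
  have h2 : s (Nat.find hex) ≤ |a| := by
    rcases h : Nat.find hex with _ | k
    · simp [s]
    · exact not_lt.1 (Nat.find_min hex (by omega : k < Nat.find hex))
  set k := Nat.find hex
  have hinj : Function.Injective fun i : ℕ => 2 * (i + 1152) + r := fun i j h => by
    simp only at h; omega
  refine ⟨(range k).image fun i => 2 * (i + 1152) + r, ?_⟩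
  rw [sum_image hinj.injOn]
  have e : ∑ i ∈ range k, (v (2 * (i + 1152) + r)).1 = σ * s k := by
    rw [mul_sum]
    refine sum_congr rfl fun i _ => ?_
    simp only [v]
    rw [pow_add, pow_mul, hσ]; norm_num; ring
  have h3 : s (k + 1) ≤ s k + 1 / 2304 := by
    simp only [s, sum_range_succ]
    gcongr
    exact_mod_cast (by omega : 2304 ≤ 2 * (k + 1152) + r)
  rw [e, ha, ← mul_sub, abs_mul, hσ1, one_mul, abs_of_nonneg (sub_nonneg.2 h2)]
  linarith

/-- Every point of the plane is the sum of a convergent subseries of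
`∑ ((-1)^n / n, (-1)^n / √n)`, `n ≥ 1`. -/
theorem result (a b : ℝ) : ∃ ε : ℕ → ℝ, (∀ n, ε n = 0 ∨ ε n = 1) ∧
    Tendsto (fun N => ∑ n ∈ range N, ε (n + 1) • v (n + 1)) atTop (𝓝 (a, b)) := by
  classical
  obtain ⟨F0, h0⟩ := init a
  obtain ⟨m0, hm1, hm2, hm3⟩ : ∃ m0 : ℕ, 600 ≤ m0 ∧ (∀ n ∈ F0, n < m0) ∧
      |b - ∑ n ∈ F0, (v n).2| * 2304 ≤ m0 := by
    obtain ⟨c, hc⟩ := exists_nat_ge (|b - ∑ n ∈ F0, (v n).2| * 2304)
    refine ⟨600 + F0.sup id + c, by omega, fun n hn => ?_, by push_cast; linarith [Nat.cast_nonneg (α := ℝ) (F0.sup id)]⟩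
    have := le_sup (f := id) hn
    simp only [id] at this ⊢; omega
  have hm0 : (600 : ℝ) ≤ m0 := by exact_mod_cast hm1
  let m : ℕ → ℕ := fun j => 3 ^ j * m0
  let η : ℕ → ℝ := fun j => (2 / 3) ^ j * (m0 / 2304)
  let C : ℝ := ∑ n ∈ F0, 1 / Real.sqrt n + 54 * η 0
  let Inv : ℕ → Finset ℕ → Prop := fun j G => (∀ n ∈ G, n < m j ^ 2) ∧
    |a - ∑ n ∈ G, (v n).1| ≤ η j / m j ∧ |b - ∑ n ∈ G, (v n).2| ≤ η j ∧
    ∑ n ∈ G, 1 / Real.sqrt n ≤ C - 54 * η j
  have hmj : ∀ j, 1 ≤ m j := fun j => Nat.mul_pos (by positivity) (by omega)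
  have hmono : Monotone m := fun i j h => Nat.mul_le_mul_right _ (Nat.pow_le_pow_right (by norm_num) h)
  have hI0 : Inv 0 F0 := by
    refine ⟨fun n hn => (hm2 n hn).trans_le (by simp [m]; nlinarith), ?_, ?_, by simp [C]⟩
    · refine h0.trans_eq ?_
      simp only [η, m, pow_zero, one_mul]; field_simp
    · simp only [η, pow_zero, one_mul]; linarith
  have hstep : ∀ j G, Inv j G → ∃ G', Inv (j + 1) G' ∧ ∀ n < m j ^ 2, (n ∈ G' ↔ n ∈ G) := by
    intro j G ⟨i1, i2, i3, i4⟩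
    have e0 : η j * m j = 2 ^ j * (m0 * m0 / 2304) := by
      simp only [η, m]; push_cast
      have : (2 / 3 : ℝ) ^ j * 3 ^ j = 2 ^ j := by rw [← mul_pow]; norm_num
      linear_combination (m0 * m0 / 2304 : ℝ) * this
    have e1 : 126 ≤ η j * m j := by
      have : (1 : ℝ) ≤ 2 ^ j := one_le_pow₀ (by norm_num)
      rw [e0]; nlinarith
    have e2 : η j ≤ m j / 2304 := by
      simp only [η, m]; push_cast
      have h1 : (2 / 3 : ℝ) ^ j ≤ 3 ^ j := pow_le_pow_left₀ (by norm_num) (by norm_num) j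
      rw [mul_div_assoc]; gcongr
    obtain ⟨F, f1, f2, f3, f4⟩ := step (hmj j) e1 e2 i2 i3
    have hd : Disjoint G F := disjoint_left.2 fun n h h' => absurd (i1 n h) (not_lt.2 (f1 n h').1)
    have hm' : m (j + 1) = 3 * m j := by simp only [m]; ring
    have hη' : η (j + 1) = 2 / 3 * η j := by simp only [η]; ring
    refine ⟨G ∪ F, ⟨fun n hn => ?_, ?_, ?_, ?_⟩, fun n hn => ?_⟩
    · rcases mem_union.1 hn with h | h
      · exact (i1 n h).trans_le (Nat.pow_le_pow_left (hmono (Nat.le_succ j)) 2)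
      · rw [hm']; exact (f1 n h).2
    · rw [sum_union hd, hm', hη', ← sub_sub]; push_cast; exact f2
    · rw [sum_union hd, hη', ← sub_sub]; exact f3
    · rw [sum_union hd, hη']; linarith
    · rw [mem_union, or_iff_left fun h => absurd hn (not_lt.2 (f1 n h).1)]
  choose! f hf1 hf2 using hstep
  obtain ⟨G, hG0, hGs⟩ : ∃ G : ℕ → Finset ℕ, G 0 = F0 ∧ ∀ j, G (j + 1) = f j (G j) :=
    ⟨fun j => Nat.rec F0 f j, rfl, fun _ => rfl⟩
  have hG : ∀ j, Inv j (G j) := fun j => by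
    induction j with
    | zero => rw [hG0]; exact hI0
    | succ j ih => rw [hGs]; exact hf1 j _ ih
  have hstab : ∀ i j, i ≤ j → ∀ n < m i ^ 2, (n ∈ G j ↔ n ∈ G i) := by
    intro i j hij n hn
    induction j, hij using Nat.le_induction with
    | base => rfl
    | succ j hij ih =>
      rw [hGs]
      exact (hf2 j _ (hG j) n (hn.trans_le (Nat.pow_le_pow_left (hmono hij) 2))).trans ih
  have hbig : ∀ n, n < m n ^ 2 := fun n => by
    have h1 : n < 3 ^ n := Nat.lt_pow_self (by norm_num)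
    have h2 : 3 ^ n ≤ m n := Nat.le_mul_of_pos_right _ (by omega)
    nlinarith
  let ε : ℕ → ℝ := fun n : ℕ => @ite ℝ (n ∈ G n) (Finset.decidableMem n (G n)) 1 0
  have hsum : ∀ (g : ℕ → ℝ) j, ∑ n ∈ range (m j ^ 2), ε n * g n = ∑ n ∈ G j, g n := by
    intro g j
    have key : ∀ n < m j ^ 2, (n ∈ G n ↔ n ∈ G j) := fun n hn => by
      rcases le_total n j with h | h
      · exact (hstab n j h n (hbig n)).symm
      · exact hstab j n h n hn
    rw [← sum_subset (s₁ := G j) (fun n hn => mem_range.2 ((hG j).1 n hn))]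
    · exact sum_congr rfl fun n hn => by simp [ε, (key n ((hG j).1 n hn)).2 hn]
    · intro n hn hn'
      simp [ε, (key n (mem_range.1 hn)).not.2 hn']
  have hε0 : ∀ n, 0 ≤ ε n := fun n => by simp only [ε]; split_ifs <;> norm_num
  have hη0 : ∀ j, 0 ≤ η j := fun j => by positivity
  have hS : Summable fun n : ℕ => ε n * (1 / Real.sqrt n) := by
    refine summable_of_sum_range_le (c := C) (fun n => mul_nonneg (hε0 n) (by positivity)) fun N => ?_
    refine (sum_le_sum_of_subset_of_nonneg (range_mono (hbig N).le)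
      fun n _ _ => mul_nonneg (hε0 n) (by positivity)).trans ?_
    rw [hsum]; linarith [(hG N).2.2.2, hη0 N]
  have hηt : Tendsto η atTop (𝓝 0) := by
    simpa using (tendsto_pow_atTop_nhds_zero_of_lt_one (r := (2 / 3 : ℝ)) (by norm_num)
      (by norm_num)).mul_const ((m0 : ℝ) / 2304)
  have hmt : Tendsto (fun j => m j ^ 2) atTop atTop := tendsto_atTop_mono (fun n => (hbig n).le) tendsto_id
  have fin : ∀ (g : ℕ → ℝ) (c : ℝ), (∀ n, |g n| ≤ 1 / Real.sqrt n) →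
      (∀ j, |c - ∑ n ∈ G j, g n| ≤ η j) → HasSum (fun n => ε n * g n) c := by
    intro g c h1 h2
    have h3 : Summable fun n => ε n * g n := Summable.of_norm_bounded hS fun n => by
      rw [Real.norm_eq_abs, abs_mul, abs_of_nonneg (hε0 n)]
      exact mul_le_mul_of_nonneg_left (h1 n) (hε0 n)
    have h4 := h3.hasSum.tendsto_sum_nat.comp hmt
    have h5 : Tendsto (fun j => ∑ n ∈ G j, g n) atTop (𝓝 c) := by
      rw [tendsto_iff_norm_sub_tendsto_zero]
      exact squeeze_zero (fun _ => norm_nonneg _)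
        (fun j => by rw [Real.norm_eq_abs, abs_sub_comm]; exact h2 j) hηt
    have h6 : ∑' n, ε n * g n = c :=
      tendsto_nhds_unique h4 (h5.congr fun j => (hsum g j).symm)
    exact h6 ▸ h3.hasSum
  have hx := fin (fun n => (v n).1) a (fun n => by
      simp only [v, abs_div, abs_pow, abs_neg, abs_one, one_pow, Nat.abs_cast]
      rcases Nat.eq_zero_or_pos n with rfl | hn
      · simp
      · have : (1 : ℝ) ≤ n := by exact_mod_cast hn
        exact one_div_le_one_div_of_le (by positivity) (Real.sqrt_le_iff.2 ⟨by linarith, by nlinarith⟩))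
    (fun j => (hG j).2.1.trans (div_le_self (hη0 j) (by exact_mod_cast hmj j)))
  have hy := fin (fun n => (v n).2) b (fun n => by
      simp [v, abs_div, abs_of_nonneg (Real.sqrt_nonneg _)]) (fun j => (hG j).2.2.1)
  have hxy : HasSum (fun n => ε n • v n) (a, b) := hx.prodMk hy
  refine ⟨ε, fun n => by simp only [ε]; split_ifs <;> simp, ?_⟩
  have := (hasSum_nat_add_iff' 1).2 hxy
  simpa [v] using this.tendsto_sum_nat

end Pool.Agent.Results.MP_51e3e3_an.Plane
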